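import Mathlib
import Pool.Agent.Q17.Mil.Main

/-!
# MP_86f038_nt: the formula for the threshold index of the Miller basis forms fails

For `ℓ = 303 = 16 * 18 + 15` the formula predicts `m(12ℓ) = 10 * 18 + 13 = 193`, but already
`f_{12ℓ,191}` has a zero which is not on the arc.
-/

set_option autoImplicit false

open UpperHalfPlane ModularForm MatrixGroups

namespace Pool.Agent.Results.MP_86f038_nt.ThresholdFails

/-- `f` is the Miller basis form `f_{12ℓ,m}`: its `q`-expansion is `q^m + O(q^(ℓ+1))`. -/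
def IsMiller (l m : ℕ) (f : ModularForm 𝒮ℒ ((12 * l : ℕ) : ℤ)) : Prop :=
  ∀ n ≤ l, (qExpansion 1 f).coeff n = if n = m then 1 else 0

/-- The arc `{e^{iθ} : π/2 ≤ θ ≤ 2π/3}`. -/
def arc : Set ℂ :=
  {w | ∃ θ : ℝ, Real.pi / 2 ≤ θ ∧ θ ≤ 2 * Real.pi / 3 ∧ w = Complex.exp (θ * Complex.I)}

/-- `f` has a zero whose `SL₂(ℤ)`-orbit does not meet the arc. -/
def HasZeroOffArc {k : ℤ} (f : ModularForm 𝒮ℒ k) : Prop :=
  ∃ z : ℍ, f z = 0 ∧ ∀ γ : SL(2, ℤ), ((γ • z : ℍ) : ℂ) ∉ arc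

/-- The Miller basis form `f_{12ℓ,m}` has a zero which is not on the arc. -/
def OffArc (l m : ℕ) : Prop :=
  ∃ f : ModularForm 𝒮ℒ ((12 * l : ℕ) : ℤ), IsMiller l m f ∧ HasZeroOffArc f

/-- The table `m_0, …, m_15`. -/
def table : List ℕ := [4, 3, 4, 5, 6, 7, 6, 7, 8, 9, 10, 9, 10, 11, 12, 13]

/-- The conjectured value `10 s + m_r` of `m(12ℓ)` for `ℓ = 16 s + r`. -/
def predicted (l : ℕ) : ℕ := 10 * (l / 16) + table.getD (l % 16) 0

/-- The statement of Q1: for `ℓ > 30`, (i) the least `m ≤ ℓ` such that `f_{12ℓ,m}` has a zero not on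
the arc is `10 s + m_r`, and (ii) `f_{12ℓ,m}` has a zero not on the arc for all `m` from there
up to `ℓ - 1`. -/
def Question : Prop :=
  ∀ l : ℕ, 30 < l → IsLeast {m | m ≤ l ∧ OffArc l m} (predicted l) ∧
    ∀ m, predicted l ≤ m → m ≤ l - 1 → OffArc l m

/-- The Miller basis forms exist and are unique; `f_{12·303,191}` has a zero not on the arc, although
`191 < 193 = 10 · 18 + m_15`; so the statement of Q1 is false. -/
theorem result : (∀ l m : ℕ, m ≤ l → ∃! f, IsMiller l m f) ∧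
    OffArc 303 191 ∧ predicted 303 = 193 ∧ ¬ Question := by
  have h1 : OffArc 303 191 := by
    obtain ⟨f, hf, z, hz, hz2⟩ := Pool.Agent.Q17.Mil.main303
    refine ⟨f, hf, z, hz, fun γ hγ => ?_⟩
    obtain ⟨θ, h1, h2, h3⟩ := hγ
    exact hz2 γ θ h1 h2 h3
  have h2 : predicted 303 = 193 := by decide
  refine ⟨fun l m hm => Pool.Agent.Q17.Mil.miller_unique l m hm, h1, h2, fun H => ?_⟩
  have h3 := (H 303 (by norm_num)).1.2 (show (191 : ℕ) ∈ {m | m ≤ 303 ∧ OffArc 303 m} from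
    ⟨by norm_num, h1⟩)
  rw [h2] at h3
  omega

end Pool.Agent.Results.MP_86f038_nt.ThresholdFails
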